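import Pool.Agent.Helper66.SB.GoalsB

/-!
# Project SB, packet ZA: from the projective statement to general affine points
-/

set_option autoImplicit false

open Module MvPolynomial

noncomputable section

namespace Pool.Agent.Helper32.SB

open Pool.Agent.Helper66.SB Helper18.Shgh

/-- exponents in two variables -/
def e2 (u v : ℕ) : Fin 2 →₀ ℕ := Finsupp.equivFunOnFinite.symm ![u, v]

theorem e2_degree (u v : ℕ) : (e2 u v).degree = u + v := by
  rw [Finsupp.degree_eq_sum, Fin.sum_univ_two]; rfl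

theorem e2_eq (e : Fin 2 →₀ ℕ) : e = e2 (e 0) (e 1) := by
  ext i
  fin_cases i <;> rfl

theorem degree2 (e : Fin 2 →₀ ℕ) : e.degree = e 0 + e 1 := by
  conv_lhs => rw [e2_eq e]
  rw [e2_degree]

theorem degree3 (e : Fin 3 →₀ ℕ) : e.degree = e 0 + e 1 + e 2 := by
  conv_lhs => rw [e3_eq e]
  rw [e3_degree]

/-- the coefficients of the dehomogenization -/
theorem coeff_deh {G : R3} {d : ℕ} (hG : G.IsHomogeneous d) (u v : ℕ) (he : u + v ≤ d) :
    coeff (e2 u v) (deh G) = coeff (e3 u v (d - (u + v))) G := by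
  rw [isHomogeneous_iff'] at hG
  have h1 : deh G = ∑ c ∈ G.support, monomial (e2 (c 0) (c 1)) (coeff c G) := by
    conv_lhs => rw [G.as_sum, map_sum]
    refine Finset.sum_congr rfl fun c _ => ?_
    rw [deh, aeval_monomial, Finsupp.prod_fintype _ _ (by simp), Fin.prod_univ_three,
      monomial_eq, Finsupp.prod_fintype _ _ (by simp), Fin.prod_univ_two]
    change algebraMap ℂ R2 (coeff c G) * (X 0 ^ (c 0) * X 1 ^ (c 1) * 1 ^ (c 2)) =
      C (coeff c G) * (X 0 ^ (c 0) * X 1 ^ (c 1))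
    rw [one_pow, mul_one]
    rfl
  rw [h1, coeff_sum, Finset.sum_eq_single (e3 u v (d - (u + v)))]
  · rw [coeff_monomial, if_pos]
    rfl
  · intro c hc hne
    rw [coeff_monomial, if_neg]
    intro h
    apply hne
    rw [MvPolynomial.mem_support_iff] at hc
    have h2 := hG c hc
    rw [degree3] at h2
    have h3 := DFunLike.congr_fun h 0
    have h4 := DFunLike.congr_fun h 1
    change c 0 = u at h3
    change c 1 = v at h4
    rw [e3_eq c]
    congr 1
    omega
  · intro h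
    rw [MvPolynomial.notMem_support_iff.1 h, map_zero, coeff_zero]

/-- homogenization -/
def hm (d : ℕ) : R2 →ₗ[ℂ] R3 :=
  (basisMonomials (Fin 2) ℂ).constr ℂ fun e => monomial (e3 (e 0) (e 1) (d - (e 0 + e 1))) 1

theorem hm_monomial (d : ℕ) (e : Fin 2 →₀ ℕ) (c : ℂ) :
    hm d (monomial e c) = monomial (e3 (e 0) (e 1) (d - (e 0 + e 1))) c := by
  have h1 : (monomial e c : R2) = c • (basisMonomials (Fin 2) ℂ e) := by
    rw [coe_basisMonomials, smul_monomial, smul_eq_mul, mul_one]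
  rw [h1, map_smul, hm, Basis.constr_basis, smul_monomial, smul_eq_mul, mul_one]

theorem deh_hm (d : ℕ) (f : R2) : deh (hm d f) = f := by
  have h : deh.toLinearMap ∘ₗ hm d = LinearMap.id := by
    refine (basisMonomials (Fin 2) ℂ).ext fun e => ?_
    rw [LinearMap.comp_apply, coe_basisMonomials, hm_monomial, LinearMap.id_apply]
    change deh (monomial (e3 (e 0) (e 1) (d - (e 0 + e 1))) 1) = monomial e 1
    rw [deh, aeval_monomial, Finsupp.prod_fintype _ _ (by simp), Fin.prod_univ_three,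
      monomial_eq, Finsupp.prod_fintype _ _ (by simp), Fin.prod_univ_two]
    change algebraMap ℂ R2 1 * (X 0 ^ (e 0) * X 1 ^ (e 1) * 1 ^ (d - (e 0 + e 1))) =
      C 1 * (X 0 ^ (e 0) * X 1 ^ (e 1))
    rw [one_pow, mul_one]
    rfl
  exact DFunLike.congr_fun h f

theorem hm_homog {d : ℕ} {f : R2} (hf : f ∈ V (d : ℤ)) : (hm d f).IsHomogeneous d := by
  rw [mem_V'] at hf
  rw [f.as_sum, map_sum]
  refine IsHomogeneous.sum _ _ _ fun e he => ?_
  rw [hm_monomial]
  apply isHomogeneous_monomial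
  rw [e3_degree]
  have h1 := hf e (MvPolynomial.mem_support_iff.1 he)
  rw [degree2] at h1
  omega

theorem deh_alp (P : Fin 2 → ℂ) (F : R3) : deh (alp (P 0) (P 1) F) = tau P (deh F) := by
  have h : deh.comp (alp (P 0) (P 1)) = (tau P).comp deh := by
    apply algHom_ext
    intro i
    fin_cases i <;> simp [alp, deh, tau]
  exact DFunLike.congr_fun h F

/-- the point of the projective plane -/
def hat (P : Fin 2 → ℂ) : Fin 3 → ℂ := ![P 0, P 1, 1]

theorem hm_mem {d a : ℕ} {f : R2} (hf : f ∈ V (d : ℤ)) {P : Fin 2 → ℂ} (hP : f ∈ mI P ^ a) :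
    hm d f ∈ LI (hat P) ^ a := by
  have h2 : hat P 2 = 1 := rfl
  have hhom := hm_homog hf
  refine mem_of_psi (d := d) (by rw [h2]; exact one_ne_zero) hhom ?_
  funext ⟨n, i⟩
  change coeff (e3 i ((n : ℕ) - i) (d - n)) (alp (P 0 / 1) (P 1 / 1) (hm d f)) = 0
  rw [div_one, div_one]
  have hi : (i : ℕ) ≤ n := by have := i.2; omega
  have hhom2 := alp_homog (P 0) (P 1) hhom
  by_cases hn : (n : ℕ) ≤ d
  · have h3 := coeff_deh hhom2 (i : ℕ) ((n : ℕ) - i) (by omega)
    have h4 : (i : ℕ) + ((n : ℕ) - i) = n := by omega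
    rw [h4] at h3
    rw [← h3, deh_alp, deh_hm]
    refine mem_mI_pow.1 hP _ ?_
    rw [e2_degree, h4]
    exact n.2
  · by_contra hne
    have h5 := isHomogeneous_iff'.1 hhom2 _ hne
    rw [e3_degree] at h5
    omega

theorem LI_scale {z : ℂ} (hz : z ≠ 0) (P : Fin 2 → ℂ) :
    LI (fun k => z * hat P k) = LI (hat P) := by
  have h : {g : MvPolynomial (Fin 3) ℂ | g.IsHomogeneous 1 ∧ eval (fun k => z * hat P k) g = 0} =
      {g : MvPolynomial (Fin 3) ℂ | g.IsHomogeneous 1 ∧ eval (hat P) g = 0} := by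
    ext g
    constructor
    · rintro ⟨h1, h2⟩
      rw [eval_smul_homog h1, pow_one] at h2
      exact ⟨h1, (mul_eq_zero.1 h2).resolve_left hz⟩
    · rintro ⟨h1, h2⟩
      refine ⟨h1, ?_⟩
      rw [eval_smul_homog h1, h2, mul_zero]
  rw [LI, LI, h]

theorem finrank_eq {s d : ℕ} (a : Fin s → ℕ) (P : Fin s → Fin 2 → ℂ) :
    finrank ℂ (↥(homogeneousSubmodule (Fin 3) ℂ d ⊓
        ⨅ i : Fin s, Submodule.restrictScalars ℂ ((LI (hat (P i))) ^ (a i) : Ideal R3))) =
      finrank ℂ (SP (d : ℤ) Finset.univ P a) := by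
  set W : Submodule ℂ R3 := homogeneousSubmodule (Fin 3) ℂ d ⊓
        ⨅ i : Fin s, Submodule.restrictScalars ℂ ((LI (hat (P i))) ^ (a i) : Ideal R3) with hW
  have hfd : FiniteDimensional ℂ W :=
    Submodule.finiteDimensional_of_le (inf_le_left : W ≤ HS d)
  have hmemW : ∀ F : R3, F ∈ W ↔ F.IsHomogeneous d ∧ ∀ i, F ∈ LI (hat (P i)) ^ a i := by
    intro F
    rw [hW, Submodule.mem_inf, Submodule.mem_iInf]
    rfl
  apply le_antisymm
  · let φ : W →ₗ[ℂ] R2 := deh.toLinearMap ∘ₗ W.subtype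
    have hφ : Function.Injective φ := by
      rw [← LinearMap.ker_eq_bot, eq_bot_iff]
      intro x hx
      exact Subtype.ext (deh_inj ((hmemW x).1 x.2).1 hx)
    rw [← LinearMap.finrank_range_of_inj hφ]
    apply Submodule.finrank_mono
    rintro _ ⟨F, rfl⟩
    have hF := (hmemW F).1 F.2
    rw [mem_SP]
    refine ⟨deh_mem_V hF.1, ?_⟩
    intro i _
    have h1 : (F : R3) ∈ mI ![P i 0, P i 1, 1] ^ a i :=
      Ideal.pow_right_mono (LI_le_mI (hat (P i))) _ (hF.2 i)
    have h2 := deh_mem_mI h1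
    have h3 : (![P i 0, P i 1] : Fin 2 → ℂ) = P i := by
      funext k
      fin_cases k <;> rfl
    rw [← h3]
    exact h2
  · have hinj : Function.Injective (hm d) := by
      intro f g h
      rw [← deh_hm d f, ← deh_hm d g, h]
    rw [← finrank_map_inj hinj (SP (d : ℤ) Finset.univ P a)]
    apply Submodule.finrank_mono
    rintro _ ⟨f, hf, rfl⟩
    have hf' := mem_SP.1 hf
    rw [hmemW]
    exact ⟨hm_homog hf'.1, fun i => hm_mem hf'.1 (hf'.2 i (Finset.mem_univ i))⟩

theorem two_choose (n : ℕ) : 2 * ((n + 1).choose 2 : ℤ) = (n : ℤ) * (n + 1) := by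
  induction n with
  | zero => simp
  | succ n ih =>
    rw [Nat.choose_succ_succ' (n + 1) 1, Nat.choose_one_right]
    push_cast
    linarith [ih]

theorem ch2_eq (s d : ℕ) (a : Fin s → ℕ) :
    2 * max ((Nat.choose (d + 2) 2 : ℤ) - ∑ i : Fin s, (Nat.choose (a i + 1) 2 : ℤ)) 0 =
      max (ch2 d Finset.univ a) 0 := by
  have h1 : ch2 d Finset.univ a =
      2 * ((Nat.choose (d + 2) 2 : ℤ) - ∑ i : Fin s, (Nat.choose (a i + 1) 2 : ℤ)) := by
    have h2 : ∑ i : Fin s, (a i : ℤ) * ((a i : ℤ) + 1) =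
        2 * ∑ i : Fin s, (Nat.choose (a i + 1) 2 : ℤ) := by
      rw [Finset.mul_sum]
      exact Finset.sum_congr rfl fun i _ => (two_choose (a i)).symm
    have h3 := two_choose (d + 1)
    rw [ch2, h2, mul_sub, h3]
    push_cast
    ring
  rw [h1]
  rcases le_total ((Nat.choose (d + 2) 2 : ℤ) - ∑ i : Fin s, (Nat.choose (a i + 1) 2 : ℤ)) 0
    with h | h
  · rw [max_eq_right h, max_eq_right (by linarith)]
    ring
  · rw [max_eq_left h, max_eq_left (by linarith)]

/-- PACKET ZA -/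
theorem gZA : G_ZA := by
  intro s d a hZ
  obtain ⟨G, hG0, hG⟩ := hZ
  -- a point outside the zero locus
  have hne : G * ∏ i : Fin s, X (i, 2) ≠ 0 := by
    refine mul_ne_zero hG0 ?_
    rw [Finset.prod_ne_zero_iff]
    intro i _
    exact X_ne_zero _
  obtain ⟨q, hq⟩ : ∃ q : Fin s × Fin 3 → ℂ, eval q (G * ∏ i : Fin s, X (i, 2)) ≠ 0 := by
    by_contra hcon
    push Not at hcon
    apply hne
    apply MvPolynomial.funext
    intro x
    rw [hcon x, map_zero]
  rw [map_mul, map_prod] at hq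
  have hq1 := left_ne_zero_of_mul hq
  have hq2 : ∀ i, q (i, 2) ≠ 0 := by
    intro i
    have h4 := (Finset.prod_ne_zero_iff.1 (right_ne_zero_of_mul hq)) i (Finset.mem_univ i)
    rwa [eval_X] at h4
  let sub : Fin s × Fin 3 → MvPolynomial (Fin s × Fin 2) ℂ := fun ik =>
    C (q (ik.1, 2)) * (![X (ik.1, 0), X (ik.1, 1), 1] : Fin 3 → _) ik.2
  have heval : ∀ P : Fin s → Fin 2 → ℂ,
      eval (fun x : Fin s × Fin 2 => P x.1 x.2) (aeval sub G) =
        eval (fun ij : Fin s × Fin 3 => q (ij.1, 2) * hat (P ij.1) ij.2) G := by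
    intro P
    have h : (aeval (fun x : Fin s × Fin 2 => P x.1 x.2) :
        MvPolynomial (Fin s × Fin 2) ℂ →ₐ[ℂ] ℂ).comp (aeval sub) =
        aeval (fun ij : Fin s × Fin 3 => q (ij.1, 2) * hat (P ij.1) ij.2) := by
      apply algHom_ext
      rintro ⟨i, k⟩
      fin_cases k <;> simp [sub, hat]
    have h1 := DFunLike.congr_fun h G
    simpa [aeval_eq_eval] using h1
  refine ⟨aeval sub G, ?_, ?_⟩
  · intro h0
    have h1 := heval (fun i k => ![q (i, 0) / q (i, 2), q (i, 1) / q (i, 2)] k)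
    rw [h0, map_zero] at h1
    apply hq1
    rw [h1]
    congr 2
    funext ⟨i, k⟩
    have hi := hq2 i
    fin_cases k
    · change q (i, 0) = q (i, 2) * (q (i, 0) / q (i, 2))
      field_simp
    · change q (i, 1) = q (i, 2) * (q (i, 1) / q (i, 2))
      field_simp
    · change q (i, 2) = q (i, 2) * 1
      ring
  · intro P hP
    rw [heval P] at hP
    have h1 := hG (fun i k => q (i, 2) * hat (P i) k) (fun i h => hq2 i (by
      have h2 := congrFun h 2
      change q (i, 2) * 1 = 0 at h2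
      rwa [mul_one] at h2)) hP
    have h3 : (homogeneousSubmodule (Fin 3) ℂ d ⊓
        ⨅ i : Fin s, Submodule.restrictScalars ℂ
          ((Ideal.span {g : MvPolynomial (Fin 3) ℂ | g.IsHomogeneous 1 ∧
            eval ((fun i k => q (i, 2) * hat (P i) k : Fin s → Fin 3 → ℂ) i) g = 0}) ^ (a i)
            : Ideal (MvPolynomial (Fin 3) ℂ))) =
        (homogeneousSubmodule (Fin 3) ℂ d ⊓
        ⨅ i : Fin s, Submodule.restrictScalars ℂ ((LI (hat (P i))) ^ (a i) : Ideal R3)) := by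
      congr 1
      refine iInf_congr fun i => ?_
      rw [← LI_scale (hq2 i) (P i)]
      rfl
    rw [h3] at h1
    change 2 * (finrank ℂ (SP (d : ℤ) Finset.univ P a) : ℤ) = max (ch2 d Finset.univ a) 0
    rw [← finrank_eq, h1, ch2_eq]

end Pool.Agent.Helper32.SB
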